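import Pool.Agent.Lib.MP_46876e_al.Final2
import Pool.Agent.Lib.MP_46876e_al.BettiEq

/-!
# Forest families of large mass from the first L2-Betti number of a subgroup
-/

namespace Pool.Agent.Results.MP_46876e_al.BettiCriterion

open MeasureTheory MulOpposite Pool.Agent.Forest46876e
open scoped ENNReal

/-- Let `G` be a countable group with an essentially free probability measure preserving right
action on a standard Borel space `X`; the point `x g` is `op g • x`.  Let `L` be a subgroup
generated by a finite family `S` whose first L2-Betti number is positive.  Suppose that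

* the first L2-Betti number of `L` is at least one; or
* `L` has an infinite finitely generated subgroup `H` of smaller first L2-Betti number; or
* `L` has an element of infinite order; or
* `L` has finite subgroups of unbounded order.

Then for every `N` there is a forest family `A` with `∑ g, μ (A g) ^ 2 > N`. -/
theorem result {G X : Type*} [Group G] [Countable G] [MeasurableSpace X] [StandardBorelSpace X]
    [MulAction Gᵐᵒᵖ X] (μ : Measure X) [IsProbabilityMeasure μ]
    (hmp : ∀ g : G, MeasurePreserving (fun x : X => op g • x) μ μ)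
    (hfree : ∀ᵐ x ∂μ, ∀ g : G, g ≠ 1 → op g • x ≠ x)
    (L : Subgroup G) {d : ℕ} (S : Fin d → L) (hS : Subgroup.closure (Set.range S) = ⊤)
    (hβ : 0 < firstL2Betti S)
    (h : 1 ≤ firstL2Betti S ∨
      (∃ H : Subgroup G, H ≤ L ∧ Infinite H ∧ ∃ (m : ℕ) (T : Fin m → H),
        Subgroup.closure (Set.range T) = ⊤ ∧ firstL2Betti T < firstL2Betti S) ∨
      (∃ g ∈ L, ¬ IsOfFinOrder g) ∨
      (∀ n : ℕ, ∃ K : Subgroup G, K ≤ L ∧ Finite K ∧ n ≤ Nat.card K))
    (N : ℝ) :
    ∃ A : G → Set X, IsForestFamily A ∧ ENNReal.ofReal N < ∑' g, μ (A g) ^ 2 := by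
  letI : MeasurableSpace G := ⊤
  haveI : DiscreteMeasurableSpace G := ⟨fun _ => trivial⟩
  haveI : MeasurableConstSMul Gᵐᵒᵖ X := ⟨fun c => (hmp c.unop).measurable⟩
  haveI : SMulInvariantMeasure Gᵐᵒᵖ X μ :=
    ⟨fun c s hs => (hmp c.unop).measure_preimage hs.nullMeasurableSet⟩
  have hfree' : ∀ᵐ x ∂μ, x ∈ freePts G X := hfree
  simp only [firstL2Betti_eq] at hβ h
  rcases h with h | ⟨H, hHL, hH, m, T, hT, hlt⟩ | ⟨g, hg, hord⟩ | h
  · obtain ⟨A, hA, hmass⟩ := Forest46876.case_one μ hfree' S hS hβ h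
    exact ⟨A, hA, by rw [hmass]; exact ENNReal.ofReal_lt_top⟩
  · obtain ⟨A, hA, hmass⟩ := Forest46876.case_sub μ hfree' S hS hβ hHL T hT hlt
    exact ⟨A, hA, by rw [hmass]; exact ENNReal.ofReal_lt_top⟩
  · obtain ⟨A, hA, hmass⟩ := Forest46876.case_order μ hfree' S hS hβ hg hord
    exact ⟨A, hA, by rw [hmass]; exact ENNReal.ofReal_lt_top⟩
  · obtain ⟨n, hn⟩ := exists_nat_ge N
    obtain ⟨A, hA, hmass⟩ := Forest46876.case_finite μ hfree' S hS hβ h n
    refine ⟨A, hA, lt_of_le_of_lt ?_ hmass⟩
    rw [← ENNReal.ofReal_natCast]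
    exact ENNReal.ofReal_le_ofReal hn

end Pool.Agent.Results.MP_46876e_al.BettiCriterion
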