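import Pool.Agent.Lib.MP_46876e_al.Cost

/-!
# Forest families of large mass when the cost increases over a large subgroup
-/

namespace Pool.Agent.Results.MP_46876e_al.CostCriterion

open MeasureTheory MulOpposite Pool.Agent.Forest46876e
open scoped ENNReal

/-- Let `G` be a countable group with an essentially free probability measure preserving right
action on a standard Borel space `X`; the point `x g` is `op g • x`.  Suppose that

* some measurable subrelation `R` of the orbit relation of `G`, which contains the orbit relation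
  of an infinite subgroup `H`, has larger cost than the orbit relation of `H`; or
* for a finite set `S` and some `c > 0` there are subgroups `H` of arbitrarily large or infinite
  order such that `cost H + c ≤ cost ⟨H, S⟩`, with `cost H` finite; or
* some subgroup `L` has cost at least two.

Then for every `N` there is a forest family `A` with `∑ g, μ (A g) ^ 2 > N`. -/
theorem result {G X : Type*} [Group G] [Countable G] [MeasurableSpace X] [StandardBorelSpace X]
    [MulAction Gᵐᵒᵖ X] (μ : Measure X) [IsProbabilityMeasure μ]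
    (hmp : ∀ g : G, MeasurePreserving (fun x : X => op g • x) μ μ)
    (hfree : ∀ᵐ x ∂μ, ∀ g : G, g ≠ 1 → op g • x ≠ x)
    (h : (∃ (H : Subgroup G) (R : Setoid X), Infinite H ∧
        (∀ g : G, MeasurableSet {x : X | R x (op g • x)}) ∧
        (∀ x y, R x y → ∃ g : G, y = op g • x) ∧ (∀ x, ∀ c ∈ H, R x (op c • x)) ∧
        cost G μ (clsSetoid X H) < cost G μ R) ∨
      (∃ (S : Finset G) (c : ℝ≥0∞), 0 < c ∧ ∀ n : ℕ, ∃ H : Subgroup G, (n : ℕ∞) ≤ ENat.card H ∧
        cost G μ (clsSetoid X H) < ⊤ ∧ cost G μ (clsSetoid X H) + c ≤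
          cost G μ (clsSetoid X (Subgroup.closure ((H : Set G) ∪ (S : Set G))))) ∨
      (∃ L : Subgroup G, 2 ≤ cost G μ (clsSetoid X L)))
    (N : ℝ) :
    ∃ A : G → Set X, IsForestFamily A ∧ ENNReal.ofReal N < ∑' g, μ (A g) ^ 2 := by
  have hfree' : ∀ᵐ x ∂μ, x ∈ freePts G X := hfree
  rcases h with ⟨H, R, hH, h1, h2, h3, h4⟩ | ⟨S, c, hc, h1⟩ | ⟨L, h2⟩
  · obtain ⟨A, hA, hmass⟩ := forest_of_cost_lt μ hmp hfree' H R h1 h2 h3 h4
    exact ⟨A, hA, by rw [hmass]; exact ENNReal.ofReal_lt_top⟩
  · exact forest_of_cost_add_le μ hmp hfree' S hc.ne' h1 _ ENNReal.ofReal_ne_top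
  · obtain ⟨A, hA, hmass⟩ := forest_of_two_le_cost μ hmp hfree' L h2
    exact ⟨A, hA, by rw [hmass]; exact ENNReal.ofReal_lt_top⟩

end Pool.Agent.Results.MP_46876e_al.CostCriterion
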