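import Pool.Agent.Lib.MP_46876e_al_BC.BFin

/-!
# MP_46876e_al: forests for groups all of whose relations contain cubes

A forest family for an action of `G` on the right (`x g` is `op g • x`) is a family of measurable
sets `A g` such that the graph with the edges `{x, x g}`, `x ∈ A g`, has no cycles.

Let `G` be a countable group and `x 0, x 1, ...` elements of `G` such that every nonempty reduced
word in the `x i` and their inverses which is `1` in `G` contains a cube `u u u`, `u` a nonempty
word. We prove that every essentially free probability measure preserving action of `G` which
factors onto the Bernoulli shift of `G` with base the space `[0,1]^ℕ` (for example this Bernoulli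
shift itself, and its product with any other action) has a forest family for which the sum of the
squares of the measures of the sets `A g` is infinite.

By theorems of Novikov, Adian and Olshanskii the free Burnside group of countably infinite rank and
large odd exponent has such elements (its free generators), and it embeds in the free Burnside
groups of rank at least two and the same exponent; these facts are not used below.

Idea of the proof: independent percolation on the Cayley graph, in which the edges of the generator
`x i` are kept with probability `1 / (4 * sqrt (i+1))`; then the first edge of every open path
which is labelled by a cube and has different edges is deleted. As the sum of the cubes of the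
densities is small, at least half of each density remains, and the sum of their squares diverges.
A cycle that remains would be labelled by a nonempty reduced word which is `1` in `G`, so it would
contain an open path labelled by a cube, with its first edge not deleted.
-/

set_option autoImplicit false

namespace Pool.Agent.Results.MP_46876e_al.CubeCriterion

open MeasureTheory MulOpposite Filter Topology
open Pool.Agent.Forest46876e
open scoped ENNReal

/-- Let `G` be a countable group with elements `x 0, x 1, ...` such that every nonempty reduced word
in the `x i` and their inverses which is `1` in `G` contains a cube. There is an atomless standard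
probability space `(K, κ)` such that every essentially free probability measure preserving action of
`G` on a standard probability space `(X, μ)` with an (almost everywhere) equivariant measure
preserving map to the Bernoulli shift `K ^ G` has a forest family with
`∑ g, μ (A g) ^ 2 = ∞`. -/
theorem result (G : Type) [Group G] [Countable G] (x : ℕ → G)
    (hx : ∀ w : FreeGroup ℕ, w ≠ 1 → FreeGroup.lift x w = 1 →
      ∃ s u t : List (ℕ × Bool), u ≠ [] ∧ w.toWord = s ++ u ++ u ++ u ++ t) :
    ∃ (K : Type) (_ : MeasurableSpace K) (_ : StandardBorelSpace K) (κ : Measure K),
      IsProbabilityMeasure κ ∧ (∀ a, κ {a} = 0) ∧
      ∀ (X : Type) [MeasurableSpace X] [StandardBorelSpace X] [MulAction Gᵐᵒᵖ X] (μ : Measure X)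
        [IsProbabilityMeasure μ] (π : X → G → K),
        (∀ g : G, MeasurePreserving (fun x : X => op g • x) μ μ) →
        (∀ᵐ x ∂μ, ∀ g : G, g ≠ 1 → op g • x ≠ x) →
        MeasurePreserving π μ (Measure.infinitePi fun _ : G => κ) →
        (∀ g : G, ∀ᵐ x ∂μ, ∀ h : G, π (op g • x) h = π x (g * h)) →
        ∃ A : G → Set X, IsForestFamily A ∧ ∑' g, μ (A g) ^ 2 = ⊤ := by
  refine ⟨Pool.Agent.MP_46876e_al_BC.KK, inferInstance, inferInstance,
    Pool.Agent.MP_46876e_al_BC.kap, Pool.Agent.MP_46876e_al_BC.kap_prob,
    Pool.Agent.MP_46876e_al_BC.kap_singleton, ?_⟩
  intro X _ _ _ μ _ π hmp hfree hπ heq
  exact Pool.Agent.MP_46876e_al_BC.cube_forest G x hx X μ π hmp hfree hπ heq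

end Pool.Agent.Results.MP_46876e_al.CubeCriterion
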