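import Pool.Agent.Lib.MP_46876e_al_PP.UCore

/-!
# MP_46876e_al: forests for the groups of Monod and of Lodha and Moore

A forest family for an action of `G` on the right (`x g` is `op g • x`) is a family of measurable
sets `A g` such that the graph with the edges `{x, x g}`, `x ∈ A g`, has no cycles.

Let `L` be the group of Lodha and Moore, or Monod's group `H(A)` of piecewise projective
homeomorphisms of the line, `A` any subring of `ℝ` other than `ℤ`. (In the definition of `H(A)` the
breakpoints are fixed points of hyperbolic elements of `PSL₂(A)`. So `H(A)` is contained in
`MonodGrp A`, where all breakpoints are allowed, and it contains all maps with `MonodCore A`, which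
have such breakpoints and no break at infinity. The theorem is stated for every group `L` between
the two.) These groups have no free subgroups of rank two. Let `G` be any countable group which
contains a copy of `L` (for example `L` itself, if it is countable). We prove that there are one probability measure preserving action of
`G` on a standard probability space `(Y, ν)` and a sequence `h n` of different elements of `G` such
that every essentially free probability measure preserving action of `G` on a standard probability
space `(X, μ)` which factors onto `(Y, ν)` has a forest family `A` such that the measure of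
`A (h n)` tends to one. So the sum of the squares of the measures of the sets `A g` is infinite.
For example `X` can be the product of `Y` and any essentially free action `W` of `G`: so every
essentially free action of `G` has an extension with such forest families.

Idea of the proof: `L` acts on the plane by `(p, t) ↦ (f p, t / f' p)` and preserves the area. On
a box of area one the `h n` (which agree on an interval with projective maps `b n` that tend to the
identity and generate a free group) have the partial graphs of almost full area, and these form a
forest, because a cycle would give a fixed point of a word in the `b n`. A Poisson process of such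
boxes, in which the first point that is seen decides, carries this forest of an infinite measure
preserving action over to an invariant random forest on `G` (module RTau). Overgroups: module ROver.
-/

set_option autoImplicit false

namespace Pool.Agent.Results.MP_46876e_al.MonodGroups

open MeasureTheory MulOpposite Filter Topology
open Pool.Agent.Forest46876e Pool.Agent.MP_46876e_al_PP
open scoped ENNReal

/-- Let `L` be the Lodha-Moore group or Monod's group `H(A)`, `A ≠ ℤ` (or any group between the maps
with `MonodCore A` and `MonodGrp A`), and let the countable group `G` contain a copy of `L`. Then `G` has one probability measure preserving action on a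
standard probability space `(Y, ν)` and a sequence of different elements `h n` such that every
essentially free probability measure preserving action of `G` on a standard probability space
`(X, μ)` with an (almost everywhere) equivariant measure preserving map `π : X → Y` has a forest
family `A` with `μ (A (h n)) → 1`, and `∑ g, μ (A g) ^ 2 = ∞`. -/
theorem result (L : Subgroup (ℝ ≃o ℝ))
    (hL : L = LMGrp ∨ ∃ A : Subring ℝ, (∃ x ∈ A, ∀ k : ℤ, x ≠ k) ∧ L ≤ MonodGrp A ∧
      ∀ f, MonodCore A f → f ∈ L)
    (G : Type) [Group G] [Countable G] (φ : L →* G) (hφ : Function.Injective φ) :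
    ∃ (Y : Type) (_ : MeasurableSpace Y) (_ : StandardBorelSpace Y) (_ : MulAction Gᵐᵒᵖ Y)
      (ν : Measure Y) (h : ℕ → G), IsProbabilityMeasure ν ∧
      (∀ g : G, MeasurePreserving (fun y : Y => op g • y) ν ν) ∧ Function.Injective h ∧
      ∀ (X : Type) [MeasurableSpace X] [StandardBorelSpace X] [MulAction Gᵐᵒᵖ X] (μ : Measure X)
        [IsProbabilityMeasure μ] (π : X → Y),
        (∀ g : G, MeasurePreserving (fun x : X => op g • x) μ μ) →
        (∀ᵐ x ∂μ, ∀ g : G, g ≠ 1 → op g • x ≠ x) →
        MeasurePreserving π μ ν → (∀ g : G, ∀ᵐ x ∂μ, π (op g • x) = op g • π x) →
        ∃ A : G → Set X, IsForestFamily A ∧ Tendsto (fun n => μ (A (h n))) atTop (𝓝 1) ∧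
          ∑' g, μ (A g) ^ 2 = ⊤ := by
  have hLD : HasLargeData G := by
    rcases hL with rfl | ⟨A, hA, hLA, hAL⟩
    · exact LM_largeData G φ hφ
    · exact core_largeData A hA L hLA hAL G φ hφ
  obtain ⟨h, m, hh, hD, hm⟩ := hLD
  obtain ⟨Y, hY1, hY2, hY3, ν, hν, hνmp, H⟩ := transferF G m hD
  refine ⟨Y, hY1, hY2, hY3, ν, h, hν, hνmp, hh, ?_⟩
  intro X _ _ _ μ _ π hmp hfree hπ heq
  obtain ⟨A, hA, hAm⟩ := H X μ hmp hfree π hπ heq
  have hne : ∀ᶠ n in atTop, h n ≠ 1 := by
    have h2 : Tendsto h cofinite cofinite := hh.tendsto_cofinite
    rw [Nat.cofinite_eq_atTop] at h2
    have h3 : ∀ᶠ g in (cofinite : Filter G), g ≠ 1 := by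
      rw [eventually_cofinite]
      exact (Set.finite_singleton (1 : G)).subset fun x hx => by
        simpa using hx
    exact h2.eventually h3
  have hT : Tendsto (fun n => μ (A (h n))) atTop (𝓝 1) := by
    refine tendsto_of_tendsto_of_tendsto_of_le_of_le' hm tendsto_const_nhds ?_ ?_
    · filter_upwards [hne] with n hn
      exact hAm _ hn
    · exact Eventually.of_forall fun n => prob_le_one
  refine ⟨A, hA, hT, ?_⟩
  by_contra hfin
  have h3 : Tendsto (fun n => μ (A (h n)) ^ 2) atTop (𝓝 (1 ^ 2)) :=
    (ENNReal.continuous_pow 2).tendsto 1 |>.comp hT
  have h4 : Tendsto (fun g => μ (A g) ^ 2) cofinite (𝓝 0) :=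
    ENNReal.tendsto_cofinite_zero_of_tsum_ne_top hfin
  have h5 : Tendsto (fun n => μ (A (h n)) ^ 2) cofinite (𝓝 0) :=
    h4.comp hh.tendsto_cofinite
  rw [Nat.cofinite_eq_atTop] at h5
  have h6 : (1 : ℝ≥0∞) ^ 2 = 0 := tendsto_nhds_unique h3 h5
  simp at h6

end Pool.Agent.Results.MP_46876e_al.MonodGroups
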